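import Mathlib
import Pool.Agent.Q21.HG.Maximal

/-!
# The associated order in the canonical nonclassical Hopf-Galois structure is maximal

Let `L/K` be a finite Galois extension of `p`-adic fields with group `G` and `p ∤ [L : K]`. The
associated order `𝔄_λ` of `𝔒_L` in `H_λ = L[λ(G)]^G` is a maximal `𝔒_K`-order of `H_λ`.

Proof. The actions of `H_λ` and of `G` on `L` commute. For `u` in the inverse different and `v` in
`𝔒_L` the element `T_{u,v}` of `H_λ` which acts as `x ↦ ∑_h Tr(h(u) x) h(v)` lies in `𝔄_λ`, and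
`trace(b T_{u,v}) = |G| Tr(u b(v))` for all `b` in `H_λ`. If `b` lies in an order `𝔅` containing
`𝔄_λ`, then `b T_{u,v}` is integral, so `|G| Tr(u b(v))` is in `𝔒_K`; as `|G|` is a unit, `b(v)` is
in the dual lattice of the inverse different, which is `𝔒_L`.
-/

set_option autoImplicit false

namespace Pool.Agent.Results.MP_46c6cb_nt.AssocOrderMaximal

open Pool.Agent.Q21.HG

/-- `𝔄` is a maximal `A`-order of the `K`-algebra `H`: no order of `H` properly contains it. -/
def IsMaximalOrder (A K : Type*) {R : Type*} [CommRing A] [Field K] [Ring R] [Algebra A R]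
    [Algebra K R] (H : Subalgebra K R) (𝔄 : Subalgebra A R) : Prop :=
  IsOrder A K H 𝔄 ∧ ∀ 𝔅 : Subalgebra A R, IsOrder A K H 𝔅 → 𝔄 ≤ 𝔅 → 𝔅 = 𝔄

section

variable (p : ℕ) [Fact p.Prime] (K L : Type*) [Field K] [Field L] [Algebra ℚ_[p] K]
  [Algebra ℤ_[p] K] [IsScalarTower ℤ_[p] ℚ_[p] K] [Algebra K L]

/-- The ring of integers `𝔒_K` of `K`: the integral closure of `ℤ_p` in `K`. -/
noncomputable abbrev OK : Subalgebra ℤ_[p] K := integralClosure ℤ_[p] K

/-- The ring of integers `𝔒_L` of `L`: the integral closure of `𝔒_K` in `L`. -/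
noncomputable abbrev OL : Subalgebra (OK p K) L := integralClosure (OK p K) L

/-- `𝔄_λ = {h ∈ H_λ : h · 𝔒_L ⊆ 𝔒_L}`, a subalgebra over `𝔒_K`. -/
noncomputable abbrev Alam : Subalgebra (OK p K) (MonoidAlgebra L (N K L)) :=
  assocOrder (K := K) (OK p K) (OL p K L)

end

/-- Let `L/K` be a finite Galois extension of `p`-adic fields with `p ∤ [L : K]`. Then `𝔄_λ` is a
maximal `𝔒_K`-order of `H_λ`. -/
theorem result (p : ℕ) [Fact p.Prime] (K L : Type*) [Field K] [Field L] [Algebra ℚ_[p] K]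
    [FiniteDimensional ℚ_[p] K] [Algebra ℤ_[p] K] [IsScalarTower ℤ_[p] ℚ_[p] K] [Algebra K L]
    [FiniteDimensional K L] [IsGalois K L] (hp : ¬ p ∣ Module.finrank K L) :
    IsMaximalOrder (OK p K) K (Hlam K L) (Alam p K L) := by
  have h1 : IsDedekindDomain (OK p K) := integralClosure.isDedekindDomain ℤ_[p] ℚ_[p] K
  have h2 : IsFractionRing (OK p K) K :=
    integralClosure.isFractionRing_of_finite_extension ℚ_[p] K
  have hu : IsUnit ((Nat.card (L ≃ₐ[K] L) : ℕ) : OK p K) := by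
    rw [IsGalois.card_aut_eq_finrank]
    have h3 : IsUnit ((Module.finrank K L : ℕ) : ℤ_[p]) := by
      rw [PadicInt.isUnit_iff, PadicInt.norm_natCast_eq_one_iff]
      exact ((Nat.Prime.coprime_iff_not_dvd Fact.out).2 hp)
    have h4 := h3.map (algebraMap ℤ_[p] (OK p K))
    rwa [map_natCast] at h4
  exact ⟨assocOrder_isOrder (OK p K), fun 𝔅 h𝔅 hle => assocOrder_maximal (OK p K) hu 𝔅 h𝔅 hle⟩

end Pool.Agent.Results.MP_46c6cb_nt.AssocOrderMaximal
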